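import Pool.Agent.H369.SM.Stm

/-! SM9 (task NORMAL of project CK, helper369): the smoothing is integrally closed. -/

set_option autoImplicit false

namespace Pool.Agent.H404.SM

open Pool.Agent.H369.SM Polynomial
open Pool.Agent.TH549.CK (swp coeff_coeff_swp)

variable {F 𝕂 P : Type} [Field F] [Field 𝕂] [Algebra F 𝕂]

theorem Ec_inj (C : Crv F 𝕂 P) (x : P) : Function.Injective (C.Ec x) :=
  PowerSeries.map_injective _ (C.E x).injective

theorem rescale_inj {R : Type} [CommRing R] [IsDomain R] {a : R} (ha : a ≠ 0) :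
    Function.Injective (PowerSeries.rescale a) := by
  rw [injective_iff_map_eq_zero]
  intro f hf
  ext n
  have h1 := congrArg (PowerSeries.coeff n) hf
  rw [PowerSeries.coeff_rescale, map_zero, mul_eq_zero] at h1
  rcases h1 with h1 | h1
  · exact absurd h1 (pow_ne_zero n ha)
  · rw [h1, map_zero]

theorem EvL_inj (C : Crv F 𝕂 P) (x : P) : Function.Injective (C.EvL x) := by
  have h1 : (HahnSeries.single (1 : ℤ) (1 : F) : LaurentSeries F) ≠ 0 := by
    intro h0
    have := congrArg (fun z => HahnSeries.coeff z (1 : ℤ)) h0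
    simp at this
  exact (rescale_inj h1).comp (Ec_inj C x)

theorem swp_swp {R : Type} [CommRing R] (y : PowerSeries (PowerSeries R)) : swp (swp y) = y := by
  ext k m
  rw [coeff_coeff_swp, coeff_coeff_swp]

/-- the lifting of integrality: a ring homomorphism `φ` to `F((w))[[t]]` which maps the ring `M` of
coefficients to `F[[w]][[t]]` -/
theorem exists_th_of_integral {A : Type} [CommRing A] (M : Subring A)
    (φ : A →+* PowerSeries (LaurentSeries F)) (hφ : Function.Injective φ)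
    (hM : ∀ a ∈ M, ∃ y, Pool.Agent.TH549.CK.P7.th F y = φ a) {p : M[X]} (hp : p.Monic) {h : A}
    (hy : eval₂ M.subtype h p = 0) {c f : A} (hcM : c ∈ M) (hfM : f ∈ M) (hc : c ≠ 0)
    (hcf : c * h = f) : ∃ z, Pool.Agent.TH549.CK.P7.th F z = φ h := by
  have h1 : ∀ a : M, ∃ y, Pool.Agent.TH549.CK.P7.th F y = φ a := fun a => hM a a.2
  choose ψ0 hψ0 using h1
  let ψ : M →+* PowerSeries (PowerSeries F) :=
    { toFun := ψ0
      map_one' := Pool.Agent.TH549.CK.P7.th_inj (by rw [hψ0, map_one]; exact map_one φ)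
      map_mul' := fun a b => Pool.Agent.TH549.CK.P7.th_inj (by rw [map_mul, hψ0, hψ0, hψ0]; exact map_mul φ _ _)
      map_zero' := Pool.Agent.TH549.CK.P7.th_inj (by rw [hψ0, map_zero]; exact map_zero φ)
      map_add' := fun a b => Pool.Agent.TH549.CK.P7.th_inj (by rw [map_add, hψ0, hψ0, hψ0]; exact map_add φ _ _) }
  have hψ : ∀ a : M, Pool.Agent.TH549.CK.P7.th F (ψ a) = φ a := hψ0
  obtain ⟨c1, hc1⟩ := hM c hcM
  obtain ⟨f1, hf1⟩ := hM f hfM
  have hc10 : c1 ≠ 0 := by
    rintro rfl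
    rw [map_zero] at hc1
    exact hc ((injective_iff_map_eq_zero _).1 hφ c hc1.symm)
  refine Pool.Agent.TH549.CK.P7.exists_of_integral (Pool.Agent.TH549.CK.P7.th F) Pool.Agent.TH549.CK.P7.th_inj (hp.map ψ) (c := c1) (f := f1) ?_ hc10 ?_
  · rw [eval₂_map]
    have h2 : (Pool.Agent.TH549.CK.P7.th F).comp ψ = φ.comp M.subtype := RingHom.ext hψ
    rw [h2, ← hom_eval₂, hy, map_zero]
  · rw [hc1, hf1, ← map_mul, hcf]

theorem bd_iff (C : Crv F 𝕂 P) {m : ℕ} (N : Nodes P m) (n : ℕ) (f : PowerSeries 𝕂) :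
    Bd C N n f ↔ ∃ z, Pool.Agent.TH549.CK.P7.th F z = (Pool.Agent.TH549.CK.P7.ww F) ^ n * C.Ec N.o f := by
  constructor
  · intro h
    apply Pool.Agent.TH549.CK.P7.exists_th
    intro j k hk
    rw [Pool.Agent.TH549.CK.P7.coeff_ww, Crv.Ec, PowerSeries.coeff_map]
    exact h j (k - n) (by omega)
  · rintro ⟨z, hz⟩ j l hl
    have h1 := Pool.Agent.TH549.CK.P7.coeff_th z j (l + n) (by omega)
    rw [hz, Pool.Agent.TH549.CK.P7.coeff_ww, add_sub_cancel_right, Crv.Ec, PowerSeries.coeff_map] at h1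
    exact h1

/-- boundedness at infinity -/
theorem bounded (C : Crv F 𝕂 P) {m : ℕ} (N : Nodes P m)
    {p : (MB C N)[X]} (hp : p.Monic) {h c : PowerSeries 𝕂}
    (hy : eval₂ (MB C N).subtype h p = 0) (hc : c ≠ 0) {n1 n2 : ℕ} (hb1 : Bd C N n1 c)
    (hb2 : Bd C N n2 (c * h)) : ∃ n, Bd C N n h := by
  have hj := Ec_inj C N.o
  obtain ⟨w', hw'⟩ := Pool.Agent.TH549.CK.P7.exists_ww (F := F)
  -- a bound for the coefficients
  have hN : ∃ B : ℕ, ∀ i ∈ Finset.range (p.natDegree + 1),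
      Bd C N B ((p.coeff i : MB C N) : PowerSeries 𝕂) := by
    have h1 : ∀ i, ∃ n, Bd C N n ((p.coeff i : MB C N) : PowerSeries 𝕂) :=
      fun i => (mem_MB.1 (p.coeff i).2).2
    choose B hB using h1
    exact ⟨∑ i ∈ Finset.range (p.natDegree + 1), B i, fun i hi => (hB i).mono
      (Finset.single_le_sum (f := B) (fun _ _ => Nat.zero_le _) hi)⟩
  obtain ⟨B, hB⟩ := hN
  refine ⟨B, (bd_iff C N B h).2 ?_⟩
  set φ : MB C N →+* PowerSeries (LaurentSeries F) := (C.Ec N.o).comp (MB C N).subtype with hφ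
  have hy1 : eval₂ φ (C.Ec N.o h) p = 0 := by
    rw [hφ, ← Polynomial.hom_eval₂, hy, map_zero]
  -- the scaled polynomial
  have hmon : (p.map φ).Monic := hp.map φ
  have hdeg : (p.map φ).natDegree = p.natDegree := hp.natDegree_map φ
  have hlift : scaleRoots (p.map φ) ((Pool.Agent.TH549.CK.P7.ww F) ^ B) ∈ Polynomial.lifts (Pool.Agent.TH549.CK.P7.th F) := by
    rw [Polynomial.lifts_iff_coeff_lifts]
    intro i
    rw [coeff_scaleRoots, hdeg, coeff_map]
    rcases lt_trichotomy i p.natDegree with hi | hi | hi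
    · obtain ⟨z, hz⟩ := (bd_iff C N B _).1 (hB i (Finset.mem_range.2 (by omega)))
      refine ⟨z * (w' ^ B) ^ (p.natDegree - i - 1), ?_⟩
      rw [map_mul, hz, map_pow, map_pow, hw']
      have e : p.natDegree - i = (p.natDegree - i - 1) + 1 := by omega
      conv_rhs => rw [e, pow_succ]
      change (Pool.Agent.TH549.CK.P7.ww F) ^ B * C.Ec N.o (p.coeff i : PowerSeries 𝕂) * _ =
        C.Ec N.o (p.coeff i : PowerSeries 𝕂) * _
      ring
    · refine ⟨1, ?_⟩
      rw [hi, Nat.sub_self, pow_zero, mul_one, map_one]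
      have h1 : p.coeff p.natDegree = 1 := hp
      rw [h1, map_one]
    · refine ⟨0, ?_⟩
      rw [coeff_eq_zero_of_natDegree_lt hi, map_zero, map_zero, zero_mul]
  obtain ⟨q, hq1, -, hq3⟩ := Polynomial.lifts_and_natDegree_eq_and_monic hlift
    ((monic_scaleRoots_iff _).2 hmon)
  have hy2 : eval₂ (Pool.Agent.TH549.CK.P7.th F) ((Pool.Agent.TH549.CK.P7.ww F) ^ B * C.Ec N.o h) q = 0 := by
    rw [← eval_map, hq1, eval, eval₂_map] at *
    have h1 : eval₂ (RingHom.id _) (C.Ec N.o h) (p.map φ) = 0 := by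
      rw [eval₂_map, RingHom.id_comp]
      exact hy1
    have h2 := scaleRoots_eval₂_eq_zero (s := (Pool.Agent.TH549.CK.P7.ww F) ^ B) (RingHom.id _) h1
    exact h2
  obtain ⟨c1, hc1⟩ := (bd_iff C N _ _).1 (hb1.mono (le_max_left n1 n2))
  obtain ⟨f1, hf1⟩ := (bd_iff C N _ _).1 (hb2.mono (le_max_right n1 n2))
  have hc10 : c1 ≠ 0 := by
    rintro rfl
    rw [map_zero, eq_comm, mul_eq_zero] at hc1
    rcases hc1 with h1 | h1
    · exact pow_ne_zero _ Pool.Agent.TH549.CK.P7.ww_ne_zero h1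
    · exact hc ((injective_iff_map_eq_zero _).1 hj c h1)
  refine Pool.Agent.TH549.CK.P7.exists_of_integral (Pool.Agent.TH549.CK.P7.th F) Pool.Agent.TH549.CK.P7.th_inj hq3 hy2 hc10 (f := w' ^ B * f1) ?_
  rw [map_mul, hc1, hf1, map_pow, hw', map_mul]
  ring

/-- integral quotients satisfy the conditions at all the places outside infinity -/
theorem mem_MM_of (C : Crv F 𝕂 P) {m : ℕ} (N : Nodes P m)
    {p : (MB C N)[X]} (hp : p.Monic) {h c f : PowerSeries 𝕂}
    (hy : eval₂ (MB C N).subtype h p = 0) (hc : c ≠ 0) (hcM : c ∈ MB C N) (hfM : f ∈ MB C N)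
    (hcf : c * h = f) : h ∈ MM C N := by
  refine ⟨fun x h1 h2 h3 => ?_, fun i => ?_⟩
  · exact exists_th_of_integral (MB C N) (C.Ec x) (Ec_inj C x)
      (fun a ha => (mem_MB.1 ha).1.1 x h1 h2 h3) hp hy hcM hfM hc hcf
  · obtain ⟨z, hz⟩ := exists_th_of_integral (MB C N) (C.EvL (N.p i)) (EvL_inj C _)
      (fun a ha => by
        obtain ⟨y, hy1, -⟩ := (mem_MB.1 ha).1.2 i
        exact ⟨y, hy1⟩) hp hy hcM hfM hc hcf
    obtain ⟨z', hz'⟩ := exists_th_of_integral (MB C N) (C.EvL (N.q i)) (EvL_inj C _)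
      (fun a ha => by
        obtain ⟨y, -, hy1⟩ := (mem_MB.1 ha).1.2 i
        exact ⟨swp y, hy1⟩) hp hy hcM hfM hc hcf
    obtain ⟨yc, hc1, hc2⟩ := (mem_MB.1 hcM).1.2 i
    obtain ⟨yf, hf1, hf2⟩ := (mem_MB.1 hfM).1.2 i
    have e1 : yc * z = yf := by
      apply Pool.Agent.TH549.CK.P7.th_inj
      rw [map_mul, hc1, hz, hf1, ← map_mul, hcf]
    have e2 : swp yc * z' = swp yf := by
      apply Pool.Agent.TH549.CK.P7.th_inj
      rw [map_mul, hc2, hz', hf2, ← map_mul, hcf]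
    have e3 : swp yc ≠ 0 := by
      intro h0
      rw [h0, map_zero] at hc2
      exact hc ((injective_iff_map_eq_zero _).1 (EvL_inj C (N.q i)) c hc2.symm)
    have e4 : z' = swp z := by
      apply mul_left_cancel₀ e3
      rw [e2, ← e1, map_mul]
    exact ⟨z, hz, by rw [← e4, hz']⟩

/-- the ring of bounded functions is integrally closed -/
theorem MB_closed (C : Crv F 𝕂 P) {m : ℕ} (N : Nodes P m) : IsIntegrallyClosed (MB C N) := by
  rw [isIntegrallyClosed_iff (FractionRing (MB C N))]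
  intro x hx
  obtain ⟨p, hp, hpx⟩ := hx
  obtain ⟨f, c, hc, rfl⟩ := IsFractionRing.div_surjective (A := MB C N) x
  have hc0 : c ≠ 0 := nonZeroDivisors.ne_zero hc
  have hc0' : (c : PowerSeries 𝕂) ≠ 0 := fun h0 => hc0 (Subtype.ext h0)
  -- the image in the fraction field of `𝕂[[t]]`
  let L := FractionRing (MB C N)
  let E := FractionRing (PowerSeries 𝕂)
  have hAE : Function.Injective (algebraMap (PowerSeries 𝕂) E) :=
    IsFractionRing.injective (PowerSeries 𝕂) E
  have hi : Function.Injective ((algebraMap (PowerSeries 𝕂) E).comp (MB C N).subtype) :=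
    hAE.comp Subtype.val_injective
  let κ : L →+* E := IsFractionRing.lift hi
  have hκ : ∀ d : MB C N, κ (algebraMap (MB C N) L d) = algebraMap (PowerSeries 𝕂) E d := fun d =>
    IsFractionRing.lift_algebraMap hi d
  have hcL : algebraMap (MB C N) L c ≠ 0 := fun h0 =>
    hc0 ((injective_iff_map_eq_zero _).1 (IsFractionRing.injective (MB C N) L) c h0)
  have hcE : algebraMap (PowerSeries 𝕂) E c ≠ 0 := fun h0 =>
    hc0' ((injective_iff_map_eq_zero _).1 hAE _ h0)
  have h1 : algebraMap (PowerSeries 𝕂) E c *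
      κ (algebraMap (MB C N) L f / algebraMap (MB C N) L c) = algebraMap (PowerSeries 𝕂) E f := by
    rw [map_div₀, hκ, hκ, mul_div_cancel₀ _ hcE]
  have h2 : eval₂ (algebraMap (PowerSeries 𝕂) E)
      (κ (algebraMap (MB C N) L f / algebraMap (MB C N) L c)) (p.map (MB C N).subtype) = 0 := by
    rw [eval₂_map]
    have h3 : (algebraMap (PowerSeries 𝕂) E).comp (MB C N).subtype =
        κ.comp (algebraMap (MB C N) L) := (RingHom.ext hκ).symm
    rw [h3, ← hom_eval₂, hpx, map_zero]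
  obtain ⟨h, hh⟩ := Pool.Agent.TH549.CK.P7.exists_of_integral (algebraMap (PowerSeries 𝕂) E) hAE (hp.map _) h2 hc0' h1
  have hch : (c : PowerSeries 𝕂) * h = f := by
    apply hAE
    rw [map_mul, hh, h1]
  have hph : eval₂ (MB C N).subtype h p = 0 := by
    apply hAE
    rw [map_zero, hom_eval₂, hh, ← eval₂_map]
    exact h2
  have hmem : h ∈ MB C N := by
    rw [mem_MB]
    constructor
    · exact mem_MM_of C N hp hph hc0' c.2 f.2 hch
    · obtain ⟨n1, hn1⟩ := (mem_MB.1 c.2).2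
      obtain ⟨n2, hn2⟩ := (mem_MB.1 f.2).2
      rw [← hch] at hn2
      exact bounded C N hp hph hc0' hn1 hn2
  refine ⟨⟨h, hmem⟩, ?_⟩
  rw [eq_div_iff hcL, ← map_mul]
  congr 1
  apply Subtype.ext
  rw [← hch, mul_comm]
  rfl

/-- from the functions over `F[[t]]` to the functions over `K` -/
theorem RK_closed (C : Crv F 𝕂 P) {m : ℕ} (N : Nodes P m) (K : Type) [Field K]
    [Algebra (PowerSeries F) K]
    [IsFractionRing (PowerSeries F) K] (hoh : ∀ o, oh F 𝕂 o ∈ MB C N)
    (hMB : IsIntegrallyClosed (MB C N)) (χ : MB C N →+* RK K C N) (hinj : Function.Injective χ)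
    (h1 : ∀ o : PowerSeries F, χ ⟨oh F 𝕂 o, hoh o⟩ =
      algebraMap K (RK K C N) (algebraMap (PowerSeries F) K o))
    (h2 : ∀ z : RK K C N, ∃ (n : ℕ) (f : MB C N),
      algebraMap K (RK K C N) (algebraMap (PowerSeries F) K (PowerSeries.X ^ n)) * z = χ f) :
    IsIntegrallyClosed (RK K C N) := by
  let t : MB C N := ⟨oh F 𝕂 PowerSeries.X, hoh _⟩
  have ht : ∀ n, χ (t ^ n) =
      algebraMap K (RK K C N) (algebraMap (PowerSeries F) K (PowerSeries.X ^ n)) := by
    intro n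
    rw [map_pow, h1, map_pow, map_pow]
  have hX : ∀ n, algebraMap (PowerSeries F) K (PowerSeries.X ^ n) ≠ 0 := fun n h0 =>
    pow_ne_zero n PowerSeries.X_ne_zero
      ((injective_iff_map_eq_zero _).1 (IsFractionRing.injective (PowerSeries F) K) _ h0)
  let _ : Algebra (MB C N) (RK K C N) := χ.toAlgebra
  have hloc : IsLocalization (Submonoid.powers t) (RK K C N) := by
    rw [isLocalization_iff]
    refine ⟨?_, ?_, ?_⟩
    · rintro ⟨_, n, rfl⟩
      change IsUnit (χ (t ^ n))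
      rw [ht]
      exact (IsUnit.mk0 _ (hX n)).map (algebraMap K (RK K C N))
    · intro z
      obtain ⟨n, f, hf⟩ := h2 z
      refine ⟨(f, ⟨t ^ n, n, rfl⟩), ?_⟩
      change z * χ (t ^ n) = χ f
      rw [ht, mul_comm, hf]
    · intro x y hxy
      exact ⟨1, by rw [hinj hxy]⟩
  have ht0 : t ≠ 0 := by
    intro h0
    have h3 := ht 1
    rw [pow_one, h0, map_zero] at h3
    exact hX 1 ((map_eq_zero (algebraMap K (RK K C N))).1 h3.symm)
  have hle : Submonoid.powers t ≤ nonZeroDivisors (MB C N) :=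
    Submonoid.powers_le.2 (mem_nonZeroDivisors_of_ne_zero ht0)
  exact isIntegrallyClosed_of_isLocalization (R := MB C N) (S := RK K C N) (Submonoid.powers t) hle

/-- **SM9** -/
theorem normal (h1 : S_oh) (h2 : S_chi) : S_normal := by
  intro F 𝕂 P _ _ _ C m N K _ _ _
  obtain ⟨χ, -, hinj, hoh, hz⟩ := h2 F 𝕂 P C m N K
  have h0 : ∀ o, oh F 𝕂 o ∈ MB C N := fun o =>
    mem_MB.2 ⟨(h1 F 𝕂 P C m N o).1, 0, (h1 F 𝕂 P C m N o).2.1⟩
  exact RK_closed C N K h0 (MB_closed C N) χ hinj (fun o => hoh o (h0 o)) hz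

end Pool.Agent.H404.SM
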